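import Pool.Agent.Run7.h177.TA.Iface

/-!
# Piece IDT of the project TA: the identity theorem
-/

set_option autoImplicit false

namespace Pool.Agent.Run7.h811.TA

open MvPolynomial Filter Topology Metric
open Run7.h177.TA
open Pool.Agent.TH182.TC (PS Holo HoloAt)

/-- multihomogeneous polynomials and scaling -/
theorem MH_scale {J : Type} {n : ℕ} {β : J →₀ ℕ} {P : MvPolynomial (J × Fin (n + 1)) ℂ} (hP : MH β P)
    (a : J → ℂ) (y y' : J × Fin (n + 1) → ℂ) (h : ∀ j ∈ β.support, ∀ l, y (j, l) = a j * y' (j, l)) :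
    eval y P = (∏ j ∈ β.support, a j ^ β j) * eval y' P := by
  classical
  rw [eval_eq, eval_eq, Finset.mul_sum]
  refine Finset.sum_congr rfl fun m hm => ?_
  have hj : ∀ x ∈ m.support, x.1 ∈ β.support := by
    intro x hx
    rw [Finsupp.mem_support_iff] at hx ⊢
    rw [← hP m hm x.1]
    intro h0
    exact hx ((Finset.sum_eq_zero_iff.1 h0) x.2 (Finset.mem_univ _))
  have h1 : ∏ x ∈ m.support, y x ^ m x = (∏ x ∈ m.support, a x.1 ^ m x) * ∏ x ∈ m.support, y' x ^ m x := by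
    rw [← Finset.prod_mul_distrib]
    refine Finset.prod_congr rfl fun x hx => ?_
    rw [← mul_pow]
    congr 1
    exact h x.1 (hj x hx) x.2
  have h2 : ∏ x ∈ m.support, a x.1 ^ m x = ∏ j ∈ β.support, a j ^ β j := by
    rw [Finset.prod_subset (s₂ := β.support ×ˢ Finset.univ)
      (fun x hx => Finset.mem_product.2 ⟨hj x hx, Finset.mem_univ _⟩)
      (fun x _ hx => by rw [Finsupp.notMem_support_iff.1 hx, pow_zero]), Finset.prod_product]
    refine Finset.prod_congr rfl fun j _ => ?_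
    show ∏ l, a j ^ m (j, l) = a j ^ β j
    rw [Finset.prod_pow_eq_pow_sum, hP m hm j]
  rw [h1, h2]
  ring

/-- polynomials in analytic functions are analytic -/
theorem an_eval {w : ℕ} {X : Type} {ψ : (Fin w → ℂ) → X → ℂ} {t₀ : Fin w → ℂ}
    (h : ∀ x, AnalyticAt ℂ (fun t => ψ t x) t₀) (P : MvPolynomial X ℂ) :
    AnalyticAt ℂ (fun t => eval (ψ t) P) t₀ := by
  induction P using MvPolynomial.induction_on with
  | C a =>
    simp only [eval_C]
    exact analyticAt_const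
  | add p q hp hq =>
    simp only [map_add]
    exact hp.fun_add hq
  | mul_X p x hp =>
    simp only [map_mul, eval_X]
    exact hp.fun_mul (h x)

/-- local coordinates -/
theorem loc {w n : ℕ} {g : (Fin w → ℂ) → PS n} (hg : Holo g) (β : (ℕ × (Fin w → ℂ)) →₀ ℕ) (t₀ : Fin w → ℂ) :
    ∃ ψ : (Fin w → ℂ) → ((ℕ × (Fin w → ℂ)) × Fin (n + 1)) → ℂ, (∀ x, AnalyticAt ℂ (fun t => ψ t x) t₀) ∧
      ∀ᶠ t in 𝓝 t₀, ∃ c : ℂ, c ≠ 0 ∧ ∀ P, MH β P → ev g P t = c * eval (ψ t) P := by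
  classical
  choose φ hφ hev using fun j : ℕ × (Fin w → ℂ) => hg ((2 : ℂ) ^ j.1 • t₀ + j.2)
  have hA : ∀ j : ℕ × (Fin w → ℂ), AnalyticAt ℂ (fun t : Fin w → ℂ => (2 : ℂ) ^ j.1 • t + j.2) t₀ := fun j =>
    (analyticAt_const.fun_smul analyticAt_id).fun_add analyticAt_const
  refine ⟨fun t x => φ x.1 ((2 : ℂ) ^ x.1.1 • t + x.1.2) x.2, fun x => ?_, ?_⟩
  · have h1 : AnalyticAt ℂ (fun t => φ x.1 ((2 : ℂ) ^ x.1.1 • t + x.1.2)) t₀ :=
      AnalyticAt.fun_comp (g := φ x.1) (f := fun t : Fin w → ℂ => (2 : ℂ) ^ x.1.1 • t + x.1.2) (hφ x.1) (hA x.1)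
    exact AnalyticAt.fun_comp (g := fun y : Fin (n + 1) → ℂ => y x.2)
      (f := fun t => φ x.1 ((2 : ℂ) ^ x.1.1 • t + x.1.2))
      ((ContinuousLinearMap.proj (R := ℂ) (φ := fun _ : Fin (n + 1) => ℂ) x.2).analyticAt _) h1
  · have h1 : ∀ᶠ t in 𝓝 t₀, ∀ j ∈ β.support, ∃ h : φ j ((2 : ℂ) ^ j.1 • t + j.2) ≠ 0,
        g ((2 : ℂ) ^ j.1 • t + j.2) = Projectivization.mk ℂ (φ j ((2 : ℂ) ^ j.1 • t + j.2)) h := by
      rw [Filter.eventually_all_finset]
      intro j _
      exact (hA j).continuousAt.tendsto.eventually (hev j)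
    filter_upwards [h1] with t ht
    have h2 : ∀ j ∈ β.support, ∃ a : ℂ, a ≠ 0 ∧ ∀ l, (mp g j t).rep l = a * φ j ((2 : ℂ) ^ j.1 • t + j.2) l := by
      intro j hj
      obtain ⟨h, hh⟩ := ht j hj
      obtain ⟨a, ha⟩ := Projectivization.exists_smul_eq_mk_rep ℂ _ h
      refine ⟨a, a.ne_zero, fun l => ?_⟩
      unfold mp
      rw [hh, ← ha]
      rfl
    choose! a ha hal using h2
    refine ⟨∏ j ∈ β.support, a j ^ β j, Finset.prod_ne_zero_iff.2 fun j hj => pow_ne_zero _ (ha j hj), fun P hP => ?_⟩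
    unfold ev
    exact MH_scale hP a _ _ fun j hj l => hal j hj l

/-- **IDT.** -/
theorem t_IDT : S_IDT := by
  intro w n g hg β P hP
  have hne : ∀ (Q : MvPolynomial ((ℕ × (Fin w → ℂ)) × Fin (n + 1)) ℂ), MH β Q →
      ∀ (t₀ : Fin w → ℂ) (ψ : (Fin w → ℂ) → ((ℕ × (Fin w → ℂ)) × Fin (n + 1)) → ℂ),
      (∀ᶠ t in 𝓝 t₀, ∃ c : ℂ, c ≠ 0 ∧ ∀ P, MH β P → ev g P t = c * eval (ψ t) P) → ev g Q t₀ ≠ 0 →
      eval (ψ t₀) Q ≠ 0 := by
    intro Q hQ t₀ ψ hc hQt h0
    obtain ⟨c, hc0, hcP⟩ := hc.self_of_nhds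
    apply hQt
    rw [hcP Q hQ, h0, mul_zero]
  refine ⟨?_, ?_⟩
  · have hopen : IsOpen {t | ev g P t ≠ 0} := by
      rw [isOpen_iff_mem_nhds]
      intro t₀ ht₀
      obtain ⟨ψ, hψ, hc⟩ := loc hg β t₀
      have h1 : AnalyticAt ℂ (fun t => eval (ψ t) P) t₀ := an_eval hψ P
      filter_upwards [h1.continuousAt.eventually_ne (hne P hP t₀ ψ hc ht₀), hc] with t ht1 ht2
      obtain ⟨c, hc0, hcP⟩ := ht2
      show ev g P t ≠ 0
      rw [hcP P hP]
      exact mul_ne_zero hc0 ht1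
    by_cases h0 : ∀ t, ev g P t = 0
    · exact Or.inl h0
    · right
      refine ⟨hopen, ?_⟩
      by_contra hd
      have hd' : (interior {t | ev g P t = 0}).Nonempty := by
        rw [Set.nonempty_iff_ne_empty]
        intro he
        exact hd (interior_eq_empty_iff_dense_compl.1 he)
      have hclosed : IsClosed (interior {t | ev g P t = 0}) := by
        rw [← closure_subset_iff_isClosed]
        intro t₀ ht₀
        obtain ⟨ψ, hψ, hc⟩ := loc hg β t₀
        obtain ⟨ε, hε, hb⟩ := Metric.eventually_nhds_iff_ball.1 ((an_eval hψ P).eventually_analyticAt.and hc)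
        obtain ⟨t₁, ht₁, ht₁'⟩ := Metric.mem_closure_iff.1 ht₀ ε hε
        have hmem : t₁ ∈ ball t₀ ε := by rwa [mem_ball, dist_comm]
        have h2 : Set.EqOn (fun t => eval (ψ t) P) 0 (ball t₀ ε) := by
          refine AnalyticOnNhd.eqOn_zero_of_preconnected_of_eventuallyEq_zero (fun t ht => (hb t ht).1)
            (convex_ball t₀ ε).isPreconnected hmem ?_
          filter_upwards [isOpen_interior.mem_nhds ht₁, isOpen_ball.mem_nhds hmem] with t ht1 ht2
          obtain ⟨c, hc0, hcP⟩ := (hb t ht2).2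
          have h3 : t ∈ {t | ev g P t = 0} := interior_subset ht1
          rw [Set.mem_setOf_eq] at h3
          rw [hcP P hP] at h3
          exact (mul_eq_zero.1 h3).resolve_left hc0
        refine mem_interior.2 ⟨ball t₀ ε, fun t ht => ?_, isOpen_ball, mem_ball_self hε⟩
        obtain ⟨c, hc0, hcP⟩ := (hb t ht).2
        have h4 : eval (ψ t) P = 0 := h2 ht
        show ev g P t = 0
        rw [hcP P hP, h4, mul_zero]
      have huniv := IsClopen.eq_univ ⟨hclosed, isOpen_interior⟩ hd'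
      apply h0
      intro t
      have : t ∈ interior {t | ev g P t = 0} := by
        rw [huniv]
        exact Set.mem_univ t
      have h5 : t ∈ {t | ev g P t = 0} := interior_subset this
      exact h5
  · intro Q hQ t₀ hQt
    obtain ⟨ψ, hψ, hc⟩ := loc hg β t₀
    refine ((an_eval hψ P).fun_div (an_eval hψ Q) (hne Q hQ t₀ ψ hc hQt)).congr ?_
    filter_upwards [hc] with t ht
    obtain ⟨c, hc0, hcP⟩ := ht
    rw [hcP P hP, hcP Q hQ, mul_div_mul_left _ _ hc0]

end Pool.Agent.Run7.h811.TA
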